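import Pool.Agent.L0h7.MS.Stm3

/-! Module FN6 of project MS (helper7); the proof is that of helper6 for module NFG of project MON. -/

set_option autoImplicit false

namespace Pool.Agent.L0h48.MS

open Pool.Agent.L0h7.MS

/-- representatives of the classes in `N` -/
def reps {G : Type} [Group G] (N : Subgroup G) : Set G :=
  {g | g ∈ N ∧ ∃ c : ConjClasses G, g = Quotient.out c}

theorem reps_finite {G : Type} [Group G] [Finite (ConjClasses G)] (N : Subgroup G) :
    (reps N).Finite := by
  refine (Set.finite_range fun c : ConjClasses G => (Quotient.out c : G)).subset ?_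
  rintro g ⟨-, c, rfl⟩
  exact ⟨c, rfl⟩

theorem closure_reps {G : Type} [Group G] (N : Subgroup G) (hN : N.Normal) :
    Subgroup.normalClosure (reps N) = N := by
  apply le_antisymm
  · exact Subgroup.normalClosure_le_normal fun g hg => hg.1
  · intro n hn
    have h1 : IsConj (Quotient.out (ConjClasses.mk n) : G) n := by
      rw [← ConjClasses.mk_eq_mk_iff_isConj]
      exact Quotient.out_eq (ConjClasses.mk n)
    obtain ⟨g, hg⟩ := isConj_iff.1 h1
    have h2 : (Quotient.out (ConjClasses.mk n) : G) ∈ N := by
      have h3 := hN.conj_mem n hn g⁻¹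
      rw [← hg] at h3
      simpa [mul_assoc] using h3
    have h3 : (Quotient.out (ConjClasses.mk n) : G) ∈ Subgroup.normalClosure (reps N) :=
      Subgroup.subset_normalClosure ⟨h2, _, rfl⟩
    rw [← hg]
    exact Subgroup.normalClosure_normal.conj_mem _ h3 g

theorem t_FN6 : S_FN6 := by
  intro G _ hfin
  have hfin' : Finite (ConjClasses G) := hfin
  refine ⟨?_, fun N hN => ?_⟩
  · have h1 : (Set.range fun c : ConjClasses G => (Quotient.out c : G)).Finite :=
      Set.finite_range _
    refine Set.Finite.of_finite_image (f := fun N : Subgroup G => reps N)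
      (h1.finite_subsets.subset ?_) ?_
    · rintro _ ⟨N, -, rfl⟩
      rintro g ⟨-, c, rfl⟩
      exact ⟨c, rfl⟩
    · intro N hN M hM h
      simp only at h
      rw [← closure_reps N hN, ← closure_reps M hM, h]
  · exact ⟨reps N, reps_finite N, closure_reps N hN⟩

end Pool.Agent.L0h48.MS
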